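import Pool.Agent.Helper50.LF.Names
import Pool.Agent.Helper82.BA.Coding
import Pool.Agent.Helper63.LF.Dom
import Pool.Agent.Helper36.LF.HDefs

/-!
# Project LF, LF-9: the second scale is not Frechet
-/

set_option autoImplicit false
set_option linter.unusedSectionVars false

namespace Pool.Agent.Helper50.LF

open Pool.Agent.Helper33.HM Pool.Agent.Helper94.BA
open Pool.Agent.Helper32.FR (wt Scale incV)

section Points

variable {B : Type 1} [CompleteBooleanAlgebra B]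

/-! ### Nonzero elements as conditions -/

theorem h15_iSup {ι : Sort*} {f : ι → B} {p : B} (hp : p ≠ ⊥) (h : p ≤ ⨆ i, f i) :
    ∃ r, r ≠ ⊥ ∧ r ≤ p ∧ ∃ i, r ≤ f i := by
  obtain ⟨i, hi⟩ := exists_inf_ne_bot hp h
  exact ⟨p ⊓ f i, hi, inf_le_left, i, inf_le_right⟩

theorem h15_le {p u : B} (h : ∀ q, q ≠ ⊥ → q ≤ p → ∃ r, r ≠ ⊥ ∧ r ≤ q ∧ r ≤ u) : p ≤ u := by
  refine le_of_forall_meets fun c hc hcp => ?_
  obtain ⟨r, hr, hrc, hru⟩ := h c hc hcp
  exact fun h0 => hr (le_bot_iff.1 (h0 ▸ le_inf hrc hru))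

theorem h15_le_iSup {ι : Sort*} {f : ι → B} {p : B}
    (h : ∀ q, q ≠ ⊥ → q ≤ p → ∃ r, r ≠ ⊥ ∧ r ≤ q ∧ ∃ i, r ≤ f i) : p ≤ ⨆ i, f i :=
  h15_le fun q hq hqp => by
    obtain ⟨r, hr, hrq, i, hi⟩ := h q hq hqp
    exact ⟨r, hr, hrq, hi.trans (le_iSup f i)⟩

theorem h15_le_compl {p u : B} (h : ∀ q, q ≠ ⊥ → q ≤ p → ¬ q ≤ u) : p ≤ uᶜ := by
  rw [le_compl_iff_disjoint_right, disjoint_iff]
  by_contra hc
  exact h _ hc inf_le_left inf_le_right

theorem h15_compl {p q u : B} (hp : p ≤ uᶜ) (hq : q ≠ ⊥) (hqp : q ≤ p) : ¬ q ≤ u := by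
  intro h
  apply hq
  have h1 : q ≤ u ⊓ uᶜ := le_inf h (hqp.trans hp)
  rwa [inf_compl_eq_bot, le_bot_iff] at h1

theorem h15_le_himp {p u v : B} (h : ∀ q, q ≠ ⊥ → q ≤ p → q ≤ u → q ≤ v) : p ≤ u ⇨ v := by
  rw [le_himp_iff]
  by_cases h0 : p ⊓ u = ⊥
  · rw [h0]
    exact bot_le
  · exact h _ h0 inf_le_left inf_le_right

theorem h15_himp {p q u v : B} (hp : p ≤ u ⇨ v) (hqp : q ≤ p) (hq : q ≤ u) : q ≤ v :=
  (le_inf (hqp.trans hp) hq).trans himp_inf_le

theorem h15_iInf {ι : Sort*} {f : ι → B} {p : B} (h : p ≤ ⨅ i, f i) (i : ι) : p ≤ f i :=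
  h.trans (iInf_le f i)

end Points

/-- The elements of the set whose closure contains the root. -/
def h15_a (n : ℕ) : Node := [n, 0, 2 * n + 6]

section Gen

variable {B : Type 1} [CompleteBooleanAlgebra B] {c : Ordinal.{0} → ℕ → B}

theorem h15_uV_nil (g : ℕ → ℕ → B) : uV g [] = ⊤ := by
  apply top_le_iff.1
  refine le_iInf₂ fun i h => ?_
  exact absurd h (Nat.not_lt_zero i)

theorem h15_uV (g : ℕ → ℕ → B) (n : ℕ) :
    uV g (h15_a n) = (eqN (g 0) n)ᶜ ⊓ (eqN (g (n + 1)) 0)ᶜ ⊓ (eqN (g (n + 2)) (2 * n + 6))ᶜ := by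
  have e0 : wt ((h15_a n).take 0) = 0 := by simp [wt]
  have e1 : wt ((h15_a n).take 1) = n + 1 := by
    simp only [wt, h15_a, List.take_succ_cons, List.take_zero, List.length_cons, List.length_nil,
      List.sum_cons, List.sum_nil]
    omega
  have e2 : wt ((h15_a n).take 2) = n + 2 := by
    simp only [wt, h15_a, List.take_succ_cons, List.take_zero, List.length_cons, List.length_nil,
      List.sum_cons, List.sum_nil]
    omega
  have l3 : (h15_a n).length = 3 := rfl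
  have key : ∀ i (h : i < (h15_a n).length), uV g (h15_a n) ≤
      (eqN (g (wt ((h15_a n).take i))) (h15_a n)[i])ᶜ := fun i h => iInf₂_le i h
  apply le_antisymm
  · refine le_inf (le_inf ?_ ?_) ?_
    · have := key 0 (by rw [l3]; omega)
      rwa [e0] at this
    · have := key 1 (by rw [l3]; omega)
      rwa [e1] at this
    · have := key 2 (by rw [l3]; omega)
      rwa [e2] at this
  · refine le_iInf₂ fun i h => ?_
    rw [l3] at h
    rcases i with _ | _ | _ | i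
    · rw [e0]
      exact inf_le_left.trans inf_le_left
    · rw [e1]
      exact inf_le_left.trans inf_le_right
    · rw [e2]
      exact inf_le_right
    · omega

theorem h15_decV (hc : Scale c) (β : Ordinal.{0}) (m : ℕ) : decV (c β) (m + 1) 0 = ⊥ := by
  have h1 : incV (c β) ≤ decV (c β) (m + 1) 0 ⇨ ⨆ i : ℕ, ⨆ _ : i < 0, decV (c β) m i :=
    iInf₂_le m 0
  rw [hc.inc β, le_himp_iff, top_inf_eq] at h1
  refine le_bot_iff.1 (h1.trans ?_)
  exact iSup₂_le fun i hi => absurd hi (Nat.not_lt_zero i)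

theorem h15_G (hc : Scale c) (hl : ∀ β, leStar linV (decV (c β)) = ⊤) (β : Ordinal.{0}) :
    ⨆ M : ℕ, ⨅ n : ℕ, ⨅ _ : M ≤ n, uV (decV (c β)) (h15_a n) = ⊤ := by
  apply top_le_iff.1
  refine h15_le_iSup fun q hq _ => ?_
  have h2 : q ≤ leStar linV (decV (c β)) := by
    rw [hl]
    exact le_top
  obtain ⟨r, hr, hrq, M, hM⟩ := h15_iSup hq h2
  have h3 : r ≤ ⨆ k, decV (c β) 0 k := by
    rw [(decV_isFn (c β)).tot 0]
    exact le_top
  obtain ⟨t, ht, htr, K, hK⟩ := h15_iSup hr h3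
  refine ⟨t, ht, htr.trans hrq, max M (K + 1), ?_⟩
  refine le_iInf₂ fun n hn => ?_
  have hn1 : M ≤ n := (le_max_left _ _).trans hn
  have hn2 : K < n := (le_max_right _ _).trans hn
  rw [h15_uV]
  refine le_inf (le_inf ?_ ?_) ?_
  · refine h15_le_compl fun s hs hst hs' => ?_
    have h4 : s ≤ (decV (c β) 0 K)ᶜ := (hs'.trans inf_le_right).trans (iInf₂_le K hn2)
    exact h15_compl h4 hs le_rfl (hst.trans hK)
  · refine h15_le_compl fun s hs hst hs' => ?_
    have h4 : s ≤ decV (c β) (n + 1) 0 := hs'.trans inf_le_left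
    rw [h15_decV hc] at h4
    exact hs (le_bot_iff.1 h4)
  · refine h15_le_compl fun s hs hst hs' => ?_
    have h4 : s ≤ decV (c β) (n + 2) (2 * n + 6) := hs'.trans inf_le_left
    have h5 := h15_iInf (h15_iInf (h15_iInf hM (n + 2)) (by omega)) (2 * n + 6)
    have h6 : s ≤ linV (n + 2) (2 * n + 6) := h15_himp h5 (hst.trans htr) h4
    unfold linV at h6
    rw [if_neg (by omega)] at h6
    exact hs (le_bot_iff.1 h6)

section Second

variable {Ω : Type} [LinearOrder Ω] {a : Ω → ℕ → B} {br : Ω → B}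

theorem h15_hT (s : Ω) (n : ℕ) (hn : 3 ≤ n) : uV (hT a s) (h15_a n) = a s (n + 2) := by
  have e0 : eqN (hT a s 0) n = ⊥ := by
    apply le_bot_iff.1
    have h1 : eqN (hT a s 0) n ≤ (hT a s 0 2)ᶜ := inf_le_right.trans (iInf₂_le 2 (by omega))
    have h2 : hT a s 0 2 = ⊤ := by
      unfold hT
      rw [if_pos (by omega)]
    rw [h2, compl_top] at h1
    exact h1
  have e1 : eqN (hT a s (n + 1)) 0 = ⊥ := by
    apply le_bot_iff.1
    have h1 : eqN (hT a s (n + 1)) 0 ≤ hT a s (n + 1) 0 := inf_le_left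
    have h2 : hT a s (n + 1) 0 = ⊥ := by
      unfold hT
      rw [if_neg (by omega), if_neg (by omega)]
    rwa [h2] at h1
  have e2 : eqN (hT a s (n + 2)) (2 * n + 6) = (a s (n + 2))ᶜ := by
    apply le_antisymm
    · have h1 : eqN (hT a s (n + 2)) (2 * n + 6) ≤ (hT a s (n + 2) (2 * n + 5))ᶜ :=
        inf_le_right.trans (iInf₂_le (2 * n + 5) (by omega))
      have h2 : hT a s (n + 2) (2 * n + 5) = a s (n + 2) := by
        unfold hT
        rw [if_neg (by omega), if_pos (by omega)]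
      rwa [h2] at h1
    · refine le_inf ?_ (le_iInf₂ fun j hj => ?_)
      · have h2 : hT a s (n + 2) (2 * n + 6) = ⊤ := by
          unfold hT
          rw [if_pos (by omega)]
        rw [h2]
        exact le_top
      · apply compl_le_compl
        unfold hT
        rw [if_neg (by omega)]
        by_cases h : 2 * (n + 2) + 1 ≤ j
        · rw [if_pos h]
        · rw [if_neg h]
          exact bot_le
  rw [h15_uV, e0, e1, e2, compl_bot, compl_compl, top_inf_eq, top_inf_eq]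

theorem h15_fin (hc : Scale c) (hl : ∀ β, leStar linV (decV (c β)) = ⊤) (D : Finset Ordinal.{0})
    (q : B) (hq : q ≠ ⊥) :
    ∃ r, r ≠ ⊥ ∧ r ≤ q ∧ ∃ M : ℕ, ∀ i ∈ D, ∀ n, M ≤ n → r ≤ uV (decV (c i)) (h15_a n) := by
  classical
  induction D using Finset.induction_on with
  | empty => exact ⟨q, hq, le_rfl, 0, fun i hi => absurd hi (Finset.notMem_empty i)⟩
  | insert j D _ ih =>
    obtain ⟨r, hr0, hr, M, hM⟩ := ih
    have h1 : r ≤ ⨆ M : ℕ, ⨅ n : ℕ, ⨅ _ : M ≤ n, uV (decV (c j)) (h15_a n) := by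
      rw [h15_G hc hl j]
      exact le_top
    obtain ⟨t, ht0, ht, K, hK⟩ := h15_iSup hr0 h1
    refine ⟨t, ht0, ht.trans hr, max M K, ?_⟩
    intro i hi n hn
    rcases Finset.mem_insert.1 hi with rfl | hi
    · exact h15_iInf (h15_iInf hK n) ((le_max_right _ _).trans hn)
    · exact ht.trans (hM i hi n ((le_max_left _ _).trans hn))

theorem h15_pos (ht : Twr a br) (D : Finset Ω) (p : B) (hp : p ≠ ⊥) (hD : ∀ s ∈ D, p ≤ br s)
    (m : ℕ) : ∃ r, r ≠ ⊥ ∧ r ≤ p ∧ ∃ n, m ≤ n ∧ ∀ s ∈ D, r ≤ a s n := by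
  classical
  by_cases hne : D.Nonempty
  · set t := D.max' hne with ht_def
    have htD : t ∈ D := D.max'_mem hne
    have key : ∀ D' : Finset Ω, D' ⊆ D → ∃ r, r ≠ ⊥ ∧ r ≤ p ∧ ∃ M : ℕ, ∀ s ∈ D', ∀ n, M ≤ n →
        r ≤ a t n ⇨ a s n := by
      intro D'
      induction D' using Finset.induction_on with
      | empty => exact fun _ => ⟨p, hp, le_rfl, 0, fun s hs => absurd hs (Finset.notMem_empty s)⟩
      | insert s D' _ ih =>
        intro hsub
        obtain ⟨r, hr0, hr, M, hM⟩ := ih ((Finset.subset_insert _ _).trans hsub)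
        have hsD : s ∈ D := hsub (Finset.mem_insert_self _ _)
        rcases (D.le_max' s hsD).eq_or_lt with hst | hst
        · refine ⟨r, hr0, hr, M, ?_⟩
          intro x hx n hn
          rcases Finset.mem_insert.1 hx with rfl | hx
          · rw [ht_def, ← hst, himp_self]
            exact le_top
          · exact hM x hx n hn
        · have h1 : r ≤ finV (a t ⊓ (a s)ᶜ) :=
            (le_inf (hr.trans (hD s hsD)) (hr.trans (hD t htD))).trans (ht.dec s t hst)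
          obtain ⟨u, hu0, hu, K, hK⟩ := h15_iSup hr0 h1
          refine ⟨u, hu0, hu.trans hr, max M K, ?_⟩
          intro x hx n hn
          rcases Finset.mem_insert.1 hx with rfl | hx
          · have h2 : u ≤ ((a t ⊓ (a x)ᶜ) n)ᶜ :=
              h15_iInf (h15_iInf hK n) ((le_max_right _ _).trans hn)
            refine h15_le_himp fun v hv hvu hvt => h15_le fun w hw hwv => ?_
            by_contra hcon
            push Not at hcon
            refine h15_compl h2 hw (hwv.trans hvu) ?_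
            refine le_inf (hwv.trans hvt) (h15_le_compl fun y hy hyw hya => ?_)
            exact hcon y hy hyw hya
          · exact hu.trans (hM x hx n ((le_max_left _ _).trans hn))
    obtain ⟨r, hr0, hr, M, hM⟩ := key D subset_rfl
    have h1 : r ≤ (finV (a t))ᶜ := by
      rw [ht.inf, compl_bot]
      exact le_top
    have h2 : (finV (a t))ᶜ = ⨅ m : ℕ, ⨆ n : ℕ, ⨆ _ : m ≤ n, a t n := by
      unfold finV
      simp only [compl_iSup, compl_iInf, compl_compl]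
    rw [h2] at h1
    obtain ⟨u, hu0, hu, n, hn⟩ := h15_iSup hr0 (h15_iInf h1 (max m M))
    obtain ⟨v, hv0, hv, hmn, hn'⟩ := h15_iSup hu0 hn
    refine ⟨v, hv0, (hv.trans hu).trans hr, n, (le_max_left _ _).trans hmn, ?_⟩
    intro s hs
    exact h15_himp (hM s hs n ((le_max_right _ _).trans hmn)) (hv.trans hu) hn'
  · refine ⟨p, hp, le_rfl, m, le_rfl, ?_⟩
    intro s hs
    exact absurd ⟨s, hs⟩ hne

theorem h15_cl (hc : Scale c) (hl : ∀ β, leStar linV (decV (c β)) = ⊤) (ht : Twr a br) :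
    clV (wH br) (gH a c) (fun x => ⨆ _ : x ∈ {x : Node | ∃ n, x = h15_a n}, ⊤) [] = ⊤ := by
  classical
  apply top_le_iff.1
  refine le_iInf fun D => le_iInf fun m => ?_
  rw [le_himp_iff, top_inf_eq]
  refine h15_le_iSup fun q hq0 hq => ?_
  let D1 : Finset Ω := (D.map (ofLex (α := Ω ⊕ Ordinal.{0})).toEmbedding).toLeft
  let D2 : Finset Ordinal.{0} := (D.map (ofLex (α := Ω ⊕ Ordinal.{0})).toEmbedding).toRight
  have hD1 : ∀ s : Ω, s ∈ D1 ↔ toLex (Sum.inl s) ∈ D := by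
    intro s
    simp only [D1, Finset.mem_toLeft, Finset.mem_map, Equiv.coe_toEmbedding]
    constructor
    · rintro ⟨x, hx, h⟩
      rwa [← h]
    · intro h
      exact ⟨_, h, rfl⟩
  have hD2 : ∀ s : Ordinal.{0}, s ∈ D2 ↔ toLex (Sum.inr s) ∈ D := by
    intro s
    simp only [D2, Finset.mem_toRight, Finset.mem_map, Equiv.coe_toEmbedding]
    constructor
    · rintro ⟨x, hx, h⟩
      rwa [← h]
    · intro h
      exact ⟨_, h, rfl⟩
  obtain ⟨r, hr0, hr, M, hM⟩ := h15_fin hc hl D2 q hq0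
  have h1 : ∀ s ∈ D1, r ≤ br s := by
    intro s hs
    have h2 := h15_iInf (h15_iInf hq (toLex (Sum.inl s))) ((hD1 s).1 hs)
    exact hr.trans (h2.trans inf_le_left)
  obtain ⟨t, ht0, htr, n, hn1, hn2⟩ := h15_pos ht D1 r hr0 h1 (max M (max m 3) + 2)
  obtain ⟨n', rfl⟩ : ∃ n', n = n' + 2 := ⟨n - 2, by omega⟩
  have hM' : M ≤ n' := by omega
  have hm' : m ≤ n' := by omega
  have h3' : 3 ≤ n' := by omega
  refine ⟨t, ht0, htr.trans hr, h15_a n', ?_⟩
  have hex : ∃ l, m ≤ l ∧ ([] : Node) ++ [l] <+: h15_a n' :=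
    ⟨n', hm', by exact ⟨[0, 2 * n' + 6], rfl⟩⟩
  refine le_iSup_of_le hex (le_inf ?_ ?_)
  · exact le_iSup_of_le (show h15_a n' ∈ {x : Node | ∃ n, x = h15_a n} from ⟨n', rfl⟩) le_top
  · refine le_iInf₂ fun j hj => ?_
    rcases hj' : ofLex j with s | i
    · have hjs : j = toLex (Sum.inl s) := by rw [← hj']; rfl
      subst hjs
      have h5 : uV (gH a c (toLex (Sum.inl s))) (h15_a n') = a s (n' + 2) := h15_hT s n' h3'
      rw [h5]
      exact hn2 s ((hD1 s).2 hj)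
    · have hjs : j = toLex (Sum.inr i) := by rw [← hj']; rfl
      subst hjs
      exact htr.trans (hM i ((hD2 i).2 hj) n' hM')

theorem h15_bound (z : ℕ → Node → B) (A : Node → B) (q : B) (hq : q ≠ ⊥)
    (h1 : q ≤ ⨅ k : ℕ, ⨆ a : Node, z k a ⊓ A a)
    (h2 : q ≤ ⨅ k : ℕ, ⨅ a : Node, ⨅ b : Node, ⨅ _ : a ≠ b, (z k a ⊓ z k b)ᶜ) (K : ℕ) :
    ∃ r, r ≠ ⊥ ∧ r ≤ q ∧ ∃ M : ℕ, ∀ k < K, ∀ n, M ≤ n → ∀ t, t ≠ ⊥ → t ≤ r →
      ¬ t ≤ z k (h15_a n) := by
  induction K with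
  | zero => exact ⟨q, hq, le_rfl, 0, fun k hk => absurd hk (Nat.not_lt_zero k)⟩
  | succ K ih =>
    obtain ⟨r, hr0, hr, M, hM⟩ := ih
    obtain ⟨t, ht0, ht, x, hx⟩ := h15_iSup hr0 (hr.trans (h15_iInf h1 K))
    refine ⟨t, ht0, ht.trans hr, max M (x.sum + 1), ?_⟩
    intro k hk n hn u hu0 hu hu'
    rcases Nat.lt_succ_iff_lt_or_eq.1 hk with hk | rfl
    · exact hM k hk n ((le_max_left _ _).trans hn) u hu0 (hu.trans ht) hu'
    · have hne : x ≠ h15_a n := by
        rintro rfl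
        have h5 : (h15_a n).sum = 3 * n + 6 := by
          simp only [h15_a, List.sum_cons, List.sum_nil]
          omega
        have h6 := (le_max_right M ((h15_a n).sum + 1)).trans hn
        omega
      have h7 := h15_iInf (h15_iInf (h15_iInf (h15_iInf h2 k) x) (h15_a n)) hne
      exact h15_compl h7 hu0 ((hu.trans ht).trans hr)
        (le_inf (hu.trans (hx.trans inf_le_left)) hu')

theorem h15_conv (ht : Twr a br) (z : ℕ → Node → B) :
    convV (wH br) (gH a c) (fun x => ⨆ _ : x ∈ {x : Node | ∃ n, x = h15_a n}, ⊤) [] z = ⊥ := by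
  by_contra hcon
  obtain ⟨q, hq0, hq⟩ : ∃ q : B, q ≠ ⊥ ∧
      q ≤ convV (wH br) (gH a c) (fun x => ⨆ _ : x ∈ {x : Node | ∃ n, x = h15_a n}, ⊤) [] z :=
    ⟨_, hcon, le_rfl⟩
  have h4 := hq.trans inf_le_right
  have h3 := (hq.trans inf_le_left).trans inf_le_right
  have h2 := ((hq.trans inf_le_left).trans inf_le_left).trans inf_le_right
  have h1 := ((hq.trans inf_le_left).trans inf_le_left).trans inf_le_left
  let Z : ℕ → B := fun n => ⨆ _ : 2 ≤ n, ⨆ k : ℕ, z k (h15_a (n - 2))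
  have hZ : q ≤ (finV Z)ᶜ := by
    have h2' : (finV Z)ᶜ = ⨅ m : ℕ, ⨆ n : ℕ, ⨆ _ : m ≤ n, Z n := by
      unfold finV
      simp only [compl_iSup, compl_iInf, compl_compl]
    rw [h2']
    refine le_iInf fun m => h15_le_iSup fun r hr0 hr => ?_
    obtain ⟨r₁, hr₁0, hr₁, K, hK⟩ := h15_iSup hr0 (hr.trans (h15_iInf h3 m))
    have h5 := h15_iInf (h15_iInf hK K) le_rfl
    obtain ⟨r₂, hr₂0, hr₂, x, hx⟩ := h15_iSup hr₁0 h5
    obtain ⟨r₃, hr₃0, hr₃, ⟨l, hml, hla⟩, hx₃⟩ := h15_iSup hr₂0 hx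
    have hr₃q : r₃ ≤ q := ((hr₃.trans hr₂).trans hr₁).trans hr
    obtain ⟨r₄, hr₄0, hr₄, y, hy⟩ := h15_iSup hr₃0 (hr₃q.trans (h15_iInf h1 K))
    have hy1 : r₄ ≤ z K y := hy.trans inf_le_left
    obtain ⟨r₅, hr₅0, hr₅, ⟨n, rfl⟩, -⟩ := h15_iSup hr₄0 (hy.trans inf_le_right)
    have hab : x = h15_a n := by
      by_contra hne
      have h7 := h15_iInf (h15_iInf (h15_iInf (h15_iInf h2 K) x) (h15_a n)) hne
      exact h15_compl h7 hr₄0 (hr₄.trans hr₃q) (le_inf (hr₄.trans hx₃) hy1)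
    subst hab
    have hln : l = n := by
      obtain ⟨u, hu⟩ := hla
      simp only [List.nil_append, List.singleton_append, h15_a, List.cons.injEq] at hu
      exact hu.1
    subst hln
    refine ⟨r₃, hr₃0, (hr₃.trans hr₂).trans hr₁, l + 2, ?_⟩
    refine le_iSup_of_le (show m ≤ l + 2 by omega)
      (le_iSup_of_le (show 2 ≤ l + 2 by omega) (le_iSup_of_le K ?_))
    rw [Nat.add_sub_cancel]
    exact hx₃
  have h5 := hZ.trans (ht.max Z)
  obtain ⟨r, hr0, hr, s, hs⟩ := h15_iSup hq0 h5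
  have hs1 : r ≤ br s := hs.trans inf_le_left
  have hs2 : r ≤ (finV (Z ⊓ (a s)ᶜ))ᶜ := hs.trans inf_le_right
  have h6 := h15_himp (h15_iInf h4 (toLex (Sum.inl s))) hr
    (le_inf hs1 (by rw [h15_uV_nil]; exact le_top))
  obtain ⟨r₁, hr₁0, hr₁, K, hK⟩ := h15_iSup hr0 h6
  obtain ⟨r₂, hr₂0, hr₂, M, hM⟩ := h15_bound z _ r₁ hr₁0 ((hr₁.trans hr).trans h1)
    ((hr₁.trans hr).trans h2) K
  refine h15_compl hs2 hr₂0 (hr₂.trans hr₁) ?_
  refine le_iSup_of_le (max M 3 + 2) (le_iInf₂ fun n hn => ?_)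
  refine h15_le_compl fun u hu0 hu huZ => ?_
  have huZ1 : u ≤ Z n := huZ.trans inf_le_left
  have huZ2 : u ≤ (a s n)ᶜ := huZ.trans inf_le_right
  obtain ⟨v₁, hv₁0, hv₁, hn2, hv₁Z⟩ := h15_iSup hu0 huZ1
  obtain ⟨v₂, hv₂0, hv₂, k, hk⟩ := h15_iSup hv₁0 hv₁Z
  have hv₂r : v₂ ≤ r₂ := (hv₂.trans hv₁).trans hu
  have hkK : K ≤ k := by
    by_contra hlt
    exact hM k (not_le.1 hlt) (n - 2) (by omega) v₂ hv₂0 hv₂r hk
  have h8 := h15_himp (h15_iInf (h15_iInf (h15_iInf hK k) hkK) (h15_a (n - 2)))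
    (hv₂r.trans hr₂) hk
  have h9 : uV (gH a c (toLex (Sum.inl s))) (h15_a (n - 2)) = a s (n - 2 + 2) :=
    h15_hT s (n - 2) (by omega)
  rw [h9, Nat.sub_add_cancel hn2] at h8
  exact h15_compl huZ2 hv₂0 (hv₂.trans hv₁) h8

theorem nonFre (hc : Scale c) (hl : ∀ β, leStar linV (decV (c β)) = ⊤) (ht : Twr a br) :
    NonFreV (wH br) (gH a c) := by
  refine ⟨{x | ∃ n, x = h15_a n}, [], ?_, h15_cl hc hl ht, h15_conv ht⟩
  rintro ⟨n, hn⟩
  simp [h15_a] at hn

end Second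

end Gen

end Pool.Agent.Helper50.LF
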